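import Mathlib

set_option autoImplicit false

/-!
Burnside basis theorem for finite 2-groups, in terms of the subgroup generated by the squares.
-/

namespace Pool.Agent.H746R3

/-- The subgroup generated by the squares. -/
def Sq (H : Type*) [Group H] : Subgroup H := Subgroup.closure (Set.range fun h : H => h ^ 2)

theorem sq_mem {H : Type*} [Group H] (h : H) : h ^ 2 ∈ Sq H :=
  Subgroup.subset_closure ⟨h, rfl⟩

instance Sq_normal {H : Type*} [Group H] : (Sq H).Normal := by
  constructor
  intro n hn g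
  induction hn using Subgroup.closure_induction with
  | mem x hx =>
    obtain ⟨y, rfl⟩ := hx
    apply Subgroup.subset_closure
    exact ⟨g * y * g⁻¹, by simp [pow_two, mul_assoc]⟩
  | one => simp
  | mul x y _ _ hx hy =>
    have : g * (x * y) * g⁻¹ = (g * x * g⁻¹) * (g * y * g⁻¹) := by group
    rw [this]
    exact mul_mem hx hy
  | inv x _ hx =>
    have : g * x⁻¹ * g⁻¹ = (g * x * g⁻¹)⁻¹ := by group
    rw [this]
    exact inv_mem hx

/-- A commutator-like element is a product of squares. -/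
theorem comm_mem {H : Type*} [Group H] (x y : H) : x * y * x⁻¹ * y⁻¹ ∈ Sq H := by
  have : x * y * x⁻¹ * y⁻¹ = (x * y) ^ 2 * (y⁻¹ * x⁻¹ * y) ^ 2 * (y⁻¹) ^ 2 := by
    simp only [pow_two]; group
  rw [this]
  exact mul_mem (mul_mem (sq_mem _) (sq_mem _)) (sq_mem _)

theorem sq_le_coatom {H : Type*} [Group H] [Finite H] (h2 : IsPGroup 2 H) {M : Subgroup H}
    (hM : IsCoatom M) : Sq H ≤ M := by
  haveI : Fact (Nat.Prime 2) := ⟨Nat.prime_two⟩
  haveI : Group.IsNilpotent H := h2.isNilpotent
  have hnorm : M.Normal :=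
    Subgroup.NormalizerCondition.normal_of_coatom M Group.normalizerCondition_of_isNilpotent hM
  unfold Sq
  rw [Subgroup.closure_le]
  rintro _ ⟨x, rfl⟩
  by_contra hx
  have hx' : x ^ 2 ∉ M := hx
  have htop : M ⊔ Subgroup.zpowers (x ^ 2) = ⊤ := by
    apply hM.2
    refine lt_of_le_of_ne le_sup_left ?_
    intro h
    apply hx'
    rw [h]
    exact Subgroup.mem_sup_right (Subgroup.mem_zpowers _)
  have hmem : x ∈ M ⊔ Subgroup.zpowers (x ^ 2) := by rw [htop]; trivial
  rw [← SetLike.mem_coe, Subgroup.normal_mul] at hmem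
  obtain ⟨m, hm, z, hz, hmz⟩ := Set.mem_mul.1 hmem
  obtain ⟨j, rfl⟩ := Subgroup.mem_zpowers_iff.1 hz
  have hm' : x ^ (1 - 2 * j : ℤ) ∈ M := by
    have : x ^ (1 - 2 * j : ℤ) = m := by
      have h1 : m = x * ((x ^ 2) ^ j)⁻¹ := eq_mul_inv_of_mul_eq hmz
      rw [h1, zpow_sub, zpow_one, zpow_mul]
      norm_cast
    rw [this]; exact hm
  obtain ⟨e, he⟩ := h2 x
  have hcop : IsCoprime (1 - 2 * j : ℤ) ((2 : ℤ) ^ e) := by
    apply IsCoprime.pow_right
    exact ⟨1, j, by ring⟩
  obtain ⟨u, v, huv⟩ := hcop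
  have hxM : x ∈ M := by
    have h1 : x = (x ^ (1 - 2 * j : ℤ)) ^ u * (x ^ ((2 : ℤ) ^ e)) ^ v := by
      rw [← zpow_mul, ← zpow_mul, ← zpow_add]
      rw [show (1 - 2 * j) * u + 2 ^ e * v = (1 : ℤ) by linarith [huv, mul_comm u (1 - 2 * j), mul_comm v ((2 : ℤ) ^ e)]]
      simp
    have h2' : x ^ ((2 : ℤ) ^ e) = 1 := by
      have : ((2 : ℤ) ^ e) = ((2 ^ e : ℕ) : ℤ) := by norm_cast
      rw [this, zpow_natCast, he]
    rw [h1, h2', one_zpow, mul_one]
    exact zpow_mem hm' u
  exact hx' (pow_mem hxM 2)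

theorem eq_top_of_sup_Sq {H : Type*} [Group H] [Finite H] (h2 : IsPGroup 2 H) {K : Subgroup H}
    (hK : K ⊔ Sq H = ⊤) : K = ⊤ := by
  rcases eq_top_or_exists_le_coatom K with h | ⟨M, hM, hKM⟩
  · exact h
  · exfalso
    apply hM.1
    rw [eq_top_iff, ← hK]
    exact sup_le hKM (sq_le_coatom h2 hM)

section
variable {H : Type*} [Group H]

theorem quot_sq (q : H ⧸ Sq H) : q ^ 2 = 1 := by
  obtain ⟨h, rfl⟩ := QuotientGroup.mk_surjective q
  rw [← QuotientGroup.mk_pow, QuotientGroup.eq_one_iff]
  exact sq_mem h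

theorem quot_comm (p q : H ⧸ Sq H) : p * q = q * p := by
  obtain ⟨a, rfl⟩ := QuotientGroup.mk_surjective p
  obtain ⟨b, rfl⟩ := QuotientGroup.mk_surjective q
  have h := comm_mem a b
  rw [← QuotientGroup.eq_one_iff] at h
  have h2 : ((a * b * a⁻¹ * b⁻¹ : H) : H ⧸ Sq H) = (a : H ⧸ Sq H) * b * (a : H ⧸ Sq H)⁻¹ * (b : H ⧸ Sq H)⁻¹ := rfl
  rw [h2] at h
  rw [mul_inv_eq_one, mul_inv_eq_iff_eq_mul] at h
  exact h

end

/-- Burnside basis: a finite 2-group has a generating set whose size is at most the binary logarithm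
of the index of the subgroup generated by squares, and every generating set has at least this size. -/
theorem burnside {H : Type*} [Group H] [Finite H] (h2 : IsPGroup 2 H) :
    ∃ S : Finset H, Subgroup.closure (S : Set H) = ⊤ ∧ 2 ^ S.card ≤ (Sq H).index := by
  classical
  letI : CommGroup (H ⧸ Sq H) := { (inferInstance : Group (H ⧸ Sq H)) with mul_comm := quot_comm }
  letI : Module (ZMod 2) (Additive (H ⧸ Sq H)) :=
    AddCommGroup.zmodModule (n := 2) (fun x => by
      have := quot_sq (Additive.toMul x)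
      exact this)
  haveI : Finite (H ⧸ Sq H) := inferInstance
  haveI : Finite (Additive (H ⧸ Sq H)) := inferInstanceAs (Finite (H ⧸ Sq H))
  haveI : Module.Finite (ZMod 2) (Additive (H ⧸ Sq H)) := Module.Finite.of_finite
  let n := Module.finrank (ZMod 2) (Additive (H ⧸ Sq H))
  let b := Module.finBasis (ZMod 2) (Additive (H ⧸ Sq H))
  have hcard : (Sq H).index = 2 ^ n := by
    rw [Subgroup.index]
    have h1 : Nat.card (Additive (H ⧸ Sq H)) = Nat.card (ZMod 2) ^ n :=
      Module.natCard_eq_pow_finrank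
    rw [Nat.card_zmod] at h1
    exact h1
  choose f hf using fun i => QuotientGroup.mk_surjective (s := Sq H) (Additive.toMul (b i))
  refine ⟨Finset.univ.image f, ?_, ?_⟩
  · apply eq_top_of_sup_Sq h2
    rw [eq_top_iff]
    set K := Subgroup.closure ((Finset.univ.image f : Finset H) : Set H) with hK
    have hmap : K.map (QuotientGroup.mk' (Sq H)) = ⊤ := by
      let W : AddSubgroup (Additive (H ⧸ Sq H)) := Subgroup.toAddSubgroup (K.map (QuotientGroup.mk' (Sq H)))
      let W' : Submodule (ZMod 2) (Additive (H ⧸ Sq H)) := AddSubgroup.toZModSubmodule 2 W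
      have hW' : W' = ⊤ := by
        rw [eq_top_iff, ← b.span_eq, Submodule.span_le]
        rintro _ ⟨i, rfl⟩
        change Additive.toMul (b i) ∈ K.map (QuotientGroup.mk' (Sq H))
        refine ⟨f i, Subgroup.subset_closure (by simp), ?_⟩
        exact hf i
      rw [eq_top_iff]
      intro q _
      have : Additive.ofMul q ∈ W' := by rw [hW']; trivial
      exact this
    intro x _
    have hx : (QuotientGroup.mk' (Sq H)) x ∈ K.map (QuotientGroup.mk' (Sq H)) := by rw [hmap]; trivial
    obtain ⟨k, hk, hkx⟩ := hx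
    have h3 : k⁻¹ * x ∈ Sq H := by
      rw [← QuotientGroup.eq]; exact hkx
    have : x = k * (k⁻¹ * x) := by group
    rw [this]
    exact mul_mem (Subgroup.mem_sup_left hk) (Subgroup.mem_sup_right h3)
  · rw [hcard]
    apply Nat.pow_le_pow_right (by norm_num)
    exact (Finset.card_image_le).trans (by simp [n])

theorem burnside_lower {H : Type*} [Group H] [Finite H] (t : Finset H)
    (ht : Subgroup.closure (t : Set H) = ⊤) : (Sq H).index ≤ 2 ^ t.card := by
  classical
  letI : CommGroup (H ⧸ Sq H) := { (inferInstance : Group (H ⧸ Sq H)) with mul_comm := quot_comm }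
  letI : Module (ZMod 2) (Additive (H ⧸ Sq H)) :=
    AddCommGroup.zmodModule (n := 2) (fun x => by
      have := quot_sq (Additive.toMul x)
      exact this)
  haveI : Finite (H ⧸ Sq H) := inferInstance
  haveI : Finite (Additive (H ⧸ Sq H)) := inferInstanceAs (Finite (H ⧸ Sq H))
  haveI : Module.Finite (ZMod 2) (Additive (H ⧸ Sq H)) := Module.Finite.of_finite
  let n := Module.finrank (ZMod 2) (Additive (H ⧸ Sq H))
  have hcard : (Sq H).index = 2 ^ n := by
    rw [Subgroup.index]
    have h1 : Nat.card (Additive (H ⧸ Sq H)) = Nat.card (ZMod 2) ^ n :=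
      Module.natCard_eq_pow_finrank
    rw [Nat.card_zmod] at h1
    exact h1
  rw [hcard]
  apply Nat.pow_le_pow_right (by norm_num)
  let g : H → Additive (H ⧸ Sq H) := fun h => Additive.ofMul (h : H ⧸ Sq H)
  have hspan : Submodule.span (ZMod 2) ((t.image g : Finset _) : Set (Additive (H ⧸ Sq H))) = ⊤ := by
    rw [eq_top_iff]
    intro q _
    obtain ⟨x, hx⟩ := QuotientGroup.mk_surjective (s := Sq H) (Additive.toMul q)
    have hx' : x ∈ Subgroup.closure (t : Set H) := by rw [ht]; trivial
    have hq : q = g x := by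
      change q = Additive.ofMul (x : H ⧸ Sq H)
      rw [hx]; rfl
    rw [hq]
    clear hq hx
    induction hx' using Subgroup.closure_induction with
    | mem y hy =>
      apply Submodule.subset_span
      simp only [Finset.coe_image, Set.mem_image]
      exact ⟨y, hy, rfl⟩
    | one => exact Submodule.zero_mem _
    | mul y z _ _ hy hz => exact Submodule.add_mem _ hy hz
    | inv y _ hy => exact Submodule.neg_mem _ hy
  have h1 : Module.finrank (ZMod 2) (Submodule.span (ZMod 2) ((t.image g : Finset _) : Set (Additive (H ⧸ Sq H))))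
      ≤ (t.image g).card := finrank_span_finset_le_card _
  rw [hspan, finrank_top] at h1
  exact h1.trans Finset.card_image_le

end Pool.Agent.H746R3
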