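import Pool.Agent.H746R3.Mod

set_option autoImplicit false

/-!
The groups of the family: `GG k` is the semidirect product of the module by the group generated by
the `k` involutions.  It is a finite 2-group, proper subgroups have smaller index of squares, and its
class is greater than `k`.
-/

namespace Pool.Agent.H746R3

open SemidirectProduct
open scoped commutatorElement

/-- the groups of the family -/
abbrev GG (k : ℕ) : Type := NN k ⋊[(AA k).subtype] AA k

instance finite_T (k : ℕ) : Finite (T k) := by
  have : NeZero (2 ^ (k + 1)) := ⟨by positivity⟩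
  infer_instance

instance finite_NN (k : ℕ) : Finite (NN k) := Finite.of_equiv (T k) Multiplicative.ofAdd

instance finite_MulAut (k : ℕ) : Finite (MulAut (NN k)) :=
  Finite.of_injective (fun f : MulAut (NN k) => (f : NN k → NN k)) DFunLike.coe_injective

theorem AA_sq' (k : ℕ) (a : AA k) : a ^ 2 = 1 := by
  apply Subtype.ext
  rw [Subgroup.coe_pow, Subgroup.coe_one]
  exact AA_sq a.1 a.2

theorem GG_dmax (k : ℕ) (H : Subgroup (GG k)) (hH : H ≠ ⊤) : (Sq H).index < (Sq (GG k)).index := by
  apply dmax_index (AA k).subtype (AA_sq' k) (fun a n => AA_near a a.2 n) _ H hH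
  intro K _ h1 h2
  exact gen K h1 h2

theorem NN_pow (k : ℕ) (n : NN k) : n ^ (2 ^ (k + 1)) = 1 := by
  apply Multiplicative.toAdd.injective
  apply Subtype.ext
  funext I
  change ((2 ^ (k + 1)) • (Multiplicative.toAdd n : T k).1) I = 0
  rw [Pi.smul_apply, nsmul_eq_mul, Nat.cast_pow, Nat.cast_ofNat, two_pow_zero, zero_mul]

theorem GG_isPGroup (k : ℕ) : IsPGroup 2 (GG k) := by
  intro g
  refine ⟨k + 2, ?_⟩
  have h1 : g ^ 2 = inl (g ^ 2).left := by
    ext
    · rfl
    · rw [right_inl, pow_two, mul_right, ← pow_two, AA_sq']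
  have h2 : 2 ^ (k + 2) = 2 * 2 ^ (k + 1) := by ring
  rw [h2, pow_mul, h1, ← map_pow, NN_pow, map_one]

theorem lcs_mem (k : ℕ) : ∀ i : ℕ, ∀ J : Finset (Fin k), J.card + i = k →
    (inl (Multiplicative.ofAdd ((2 ^ i) • eT J)) : GG k) ∈ (⊤ : Subgroup (GG k)).lowerCentralSeries i := by
  intro i
  induction i with
  | zero => intro J _; exact Subgroup.mem_top _
  | succ i ih =>
    intro J hJ
    have hex : ∃ j, j ∉ J := by
      by_contra hcon
      push Not at hcon
      have : J = Finset.univ := Finset.eq_univ_iff_forall.2 hcon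
      rw [this, Finset.card_univ, Fintype.card_fin] at hJ
      omega
    obtain ⟨j, hj⟩ := hex
    have hc : (insert j J).card = J.card + 1 := Finset.card_insert_of_notMem hj
    have hin := ih (insert j J) (by omega)
    let s : AA k := ⟨sAut j, Subgroup.subset_closure ⟨j, rfl⟩⟩
    have hmem := Subgroup.commutator_mem_commutator hin (Subgroup.mem_top (inr s : GG k))
    have heq : ⁅(inl (Multiplicative.ofAdd ((2 ^ i) • eT (insert j J))) : GG k), (inr s : GG k)⁆ =
        (inl (Multiplicative.ofAdd ((2 ^ (i + 1)) • eT J)))⁻¹ := by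
      have h1 : ∀ x : NN k, ⁅(inl x : GG k), (inr s : GG k)⁆ = inl (x * sAut j x⁻¹) := by
        intro x
        have h0 : (inl (sAut j x⁻¹) : GG k) = inr s * inl x⁻¹ * (inr s)⁻¹ := by
          rw [← map_inv (inr : AA k →* GG k), ← inl_aut]
          rfl
        rw [commutatorElement_def, map_mul, h0, map_inv]
        simp only [mul_assoc]
      rw [h1, ← map_inv (inl : NN k →* GG k)]
      refine congrArg (fun z : NN k => (inl z : GG k)) ?_
      apply Multiplicative.toAdd.injective
      apply Subtype.ext
      change ((2 ^ i) • eT (insert j J)).1 + sg j (-((2 ^ i) • eT (insert j J))).1 =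
        -((2 ^ (i + 1)) • eT J).1
      have h2 : ((2 ^ i) • eT (insert j J)).1 =
          (Pi.single (insert j J) (2 ^ i * 2 ^ (J.card + 1)) : U k) := by
        change (2 ^ i) • (Pi.single (insert j J) (2 ^ (insert j J).card) : U k) = _
        rw [hc, ← Pi.single_smul, nsmul_eq_mul, Nat.cast_pow, Nat.cast_ofNat]
      have h3 : ((2 ^ (i + 1)) • eT J).1 =
          (Pi.single J (2 ^ i * 2 ^ (J.card + 1)) : U k) := by
        change (2 ^ (i + 1)) • (Pi.single J (2 ^ J.card) : U k) = _
        rw [← Pi.single_smul, nsmul_eq_mul, Nat.cast_pow, Nat.cast_ofNat]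
        congr 1
        ring
      have h4 : (-((2 ^ i) • eT (insert j J))).1 =
          (Pi.single (insert j J) (-(2 ^ i * 2 ^ (J.card + 1))) : U k) := by
        change -(((2 ^ i) • eT (insert j J)).1) = _
        rw [h2, Pi.single_neg]
      have h5 : (2 : ZMod (2 ^ (k + 1))) ^ i * 2 ^ (J.card + 1) +
          2 ^ i * 2 ^ (J.card + 1) = 0 := by
        rw [← two_mul, ← pow_add, ← pow_succ']
        have : i + (J.card + 1) + 1 = k + 1 := by omega
        rw [this]; exact two_pow_zero
      rw [h4, sg_single J j hj, h2, h3, Pi.single_neg, Pi.single_neg]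
      have h6 : (Pi.single (insert j J) (2 ^ i * 2 ^ (J.card + 1)) : U k) +
          Pi.single (insert j J) (2 ^ i * 2 ^ (J.card + 1)) = 0 := by
        rw [← Pi.single_add, h5, Pi.single_zero]
      linear_combination h6
    rw [heq] at hmem
    exact inv_mem_iff.1 hmem

theorem lcs_ne_bot (k : ℕ) : (⊤ : Subgroup (GG k)).lowerCentralSeries k ≠ ⊥ := by
  intro h
  have h1 := lcs_mem k k ∅ (by simp)
  rw [h, Subgroup.mem_bot] at h1
  have h2 : (Multiplicative.ofAdd ((2 ^ k) • eT (∅ : Finset (Fin k))) : NN k) = 1 :=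
    inl_injective (φ := (AA k).subtype) (by rw [h1, map_one])
  have h3 := congrArg (fun z : NN k => (Multiplicative.toAdd z : T k).1 ∅) h2
  change ((2 ^ k) • (Pi.single ∅ (2 ^ (∅ : Finset (Fin k)).card) : U k)) ∅ = 0 at h3
  rw [Pi.smul_apply, Pi.single_eq_same, Finset.card_empty, pow_zero, nsmul_one,
    ZMod.natCast_eq_zero_iff] at h3
  have h4 := Nat.le_of_dvd (by positivity) h3
  have h5 : 2 ^ k < 2 ^ (k + 1) := Nat.pow_lt_pow_right (by norm_num) (Nat.lt_succ_self k)
  omega

/-- Transport of a finite 2-group with small proper subgroups along an injective homomorphism. -/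
theorem transport {G X : Type*} [Group G] [Group X] [Finite G] (hG : IsPGroup 2 G)
    (hd : ∀ H : Subgroup G, H ≠ ⊤ → (Sq H).index < (Sq G).index)
    (ρ : G →* X) (hρ : Function.Injective ρ) (H : Subgroup X) (hH : H < ρ.range) :
    ∃ s : Finset X, Subgroup.closure (s : Set X) = H ∧
      ∀ t : Finset X, Subgroup.closure (t : Set X) = ρ.range → s.card < t.card := by
  classical
  have hmap : (H.comap ρ).map ρ = H := by
    rw [Subgroup.map_comap_eq, inf_eq_right]
    exact hH.le
  have hne : H.comap ρ ≠ ⊤ := by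
    intro h
    rw [h, ← MonoidHom.range_eq_map] at hmap
    exact hH.ne hmap.symm
  obtain ⟨S, hS, hScard⟩ := burnside (H := (H.comap ρ)) (hG.to_subgroup _)
  refine ⟨S.image (ρ.comp (H.comap ρ).subtype), ?_, ?_⟩
  · have h1 : ((S.image (ρ.comp (H.comap ρ).subtype) : Finset X) : Set X) =
        (ρ.comp (H.comap ρ).subtype) '' (S : Set (H.comap ρ)) := Finset.coe_image
    rw [h1, ← MonoidHom.map_closure, hS, ← MonoidHom.range_eq_map, MonoidHom.range_comp,
      Subgroup.range_subtype, hmap]
  · intro t ht
    let t' : Finset G := t.preimage ρ hρ.injOn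
    have h2 : Subgroup.closure (t' : Set G) = ⊤ := by
      apply Subgroup.map_injective hρ
      rw [MonoidHom.map_closure, Finset.coe_preimage, Set.image_preimage_eq_inter_range,
        ← MonoidHom.range_eq_map, ← ht]
      congr 1
      rw [Set.inter_eq_left]
      intro x hx
      have : x ∈ ρ.range := by rw [← ht]; exact Subgroup.subset_closure hx
      exact this
    have h3 : t'.card ≤ t.card := by
      rw [Finset.card_preimage]
      exact Finset.card_filter_le _ _
    have h4 := burnside_lower t' h2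
    have h5 : 2 ^ (S.image (ρ.comp (H.comap ρ).subtype)).card < 2 ^ t.card := by
      calc 2 ^ (S.image (ρ.comp (H.comap ρ).subtype)).card ≤ 2 ^ S.card :=
            Nat.pow_le_pow_right (by norm_num) Finset.card_image_le
        _ ≤ (Sq (H.comap ρ)).index := hScard
        _ < (Sq G).index := hd _ hne
        _ ≤ 2 ^ t'.card := h4
        _ ≤ 2 ^ t.card := Nat.pow_le_pow_right (by norm_num) h3
    exact (Nat.pow_lt_pow_iff_right (by norm_num)).1 h5

theorem final (c : ℕ) : ∃ n : ℕ, ∃ P : Subgroup (Equiv.Perm (Fin n)),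
      IsPGroup 2 P ∧
      (∀ H : Subgroup (Equiv.Perm (Fin n)), H < P →
        ∃ s : Finset (Equiv.Perm (Fin n)),
          Subgroup.closure (↑s : Set (Equiv.Perm (Fin n))) = H ∧
          ∀ t : Finset (Equiv.Perm (Fin n)),
            Subgroup.closure (↑t : Set (Equiv.Perm (Fin n))) = P → s.card < t.card) ∧
      P.lowerCentralSeries c ≠ ⊥ := by
  let e : GG c ≃ Fin (Nat.card (GG c)) := Finite.equivFin _
  let ρ : GG c →* Equiv.Perm (Fin (Nat.card (GG c))) :=
    (Equiv.permCongrHom e).toMonoidHom.comp (MulAction.toPermHom (GG c) (GG c))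
  have hρ : Function.Injective ρ :=
    (Equiv.permCongrHom e).injective.comp MulAction.toPerm_injective
  refine ⟨Nat.card (GG c), ρ.range, ?_, ?_, ?_⟩
  · exact (GG_isPGroup c).of_surjective ρ.rangeRestrict ρ.rangeRestrict_surjective
  · intro H hH
    exact transport (GG_isPGroup c) (GG_dmax c) ρ hρ H hH
  · rw [MonoidHom.range_eq_map, ← Subgroup.map_lowerCentralSeries]
    intro h
    rw [Subgroup.map_eq_bot_iff_of_injective _ hρ] at h
    exact lcs_ne_bot c h

end Pool.Agent.H746R3
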