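import Pool.Agent.H746R3.Semi

set_option autoImplicit false

/-!
The module: functions `x` on the subsets of `Fin k` with values in `ZMod (2 ^ (k + 1))` such that
`x I` is divisible by `2 ^ |I|`, with `k` commuting involutions.
-/

namespace Pool.Agent.H746R3

open SemidirectProduct

variable (k : ℕ)

/-- the ambient module -/
abbrev U : Type := Finset (Fin k) → ZMod (2 ^ (k + 1))

/-- the submodule -/
def T : AddSubgroup (U k) where
  carrier := {x | ∀ I, ∃ y, x I = 2 ^ I.card * y}
  zero_mem' := fun I => ⟨0, by simp⟩
  add_mem' := by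
    intro x y hx hy I
    obtain ⟨u, hu⟩ := hx I
    obtain ⟨v, hv⟩ := hy I
    exact ⟨u + v, by simp [hu, hv, mul_add]⟩
  neg_mem' := by
    intro x hx I
    obtain ⟨u, hu⟩ := hx I
    exact ⟨-u, by simp [hu]⟩

variable {k}

/-- the involution attached to `j` -/
def sg (j : Fin k) (x : U k) : U k := fun I => if j ∈ I then -x I else x I + x (insert j I)

theorem sg_add (j : Fin k) (x y : U k) : sg j (x + y) = sg j x + sg j y := by
  funext I
  by_cases h : j ∈ I
  · simp [sg, h]; ring
  · simp [sg, h]; ring

theorem sg_sg (j : Fin k) (x : U k) : sg j (sg j x) = x := by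
  funext I
  by_cases h : j ∈ I
  · simp [sg, h]
  · simp [sg, h]

theorem sg_comm (i j : Fin k) (x : U k) : sg i (sg j x) = sg j (sg i x) := by
  funext I
  by_cases hij : i = j
  · rw [hij]
  · have hji : ¬ j = i := fun h => hij h.symm
    by_cases hi : i ∈ I
    · by_cases hj : j ∈ I
      · simp [sg, hi, hj]
      · simp [sg, hi, hj, hij]; ring
    · by_cases hj : j ∈ I
      · simp [sg, hi, hj, hji]; ring
      · simp [sg, hi, hj, hij, hji, Finset.insert_comm i j I]; ring

theorem sg_mem (j : Fin k) (x : U k) (hx : x ∈ T k) : sg j x ∈ T k := by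
  intro I
  obtain ⟨u, hu⟩ := hx I
  by_cases h : j ∈ I
  · exact ⟨-u, by simp [sg, h, hu]⟩
  · obtain ⟨v, hv⟩ := hx (insert j I)
    refine ⟨u + 2 * v, ?_⟩
    rw [Finset.card_insert_of_notMem h] at hv
    simp [sg, h, hu, hv]; ring

/-- the module as a multiplicative group -/
abbrev NN (k : ℕ) : Type := Multiplicative (T k)

/-- the involution as an automorphism of the submodule -/
def sEquiv (j : Fin k) : T k ≃+ T k where
  toFun x := ⟨sg j x, sg_mem j x x.2⟩
  invFun x := ⟨sg j x, sg_mem j x x.2⟩
  left_inv x := Subtype.ext (sg_sg j x)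
  right_inv x := Subtype.ext (sg_sg j x)
  map_add' x y := Subtype.ext (sg_add j x y)

/-- the involution as an automorphism of the multiplicative group -/
def sAut (j : Fin k) : MulAut (NN k) := AddEquiv.toMultiplicative (sEquiv j)

theorem sAut_apply (j : Fin k) (x : T k) :
    sAut j (Multiplicative.ofAdd x) = Multiplicative.ofAdd ⟨sg j x, sg_mem j x x.2⟩ := rfl

/-- the group of automorphisms generated by the involutions -/
def AA (k : ℕ) : Subgroup (MulAut (NN k)) := Subgroup.closure (Set.range fun j : Fin k => sAut j)

theorem sAut_comm (i j : Fin k) : Commute (sAut i) (sAut j) := by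
  ext x
  exact congrArg Subtype.val (congrArg Multiplicative.toAdd
    (show (sAut i * sAut j) x = (sAut j * sAut i) x from by
      apply Multiplicative.toAdd.injective
      apply Subtype.ext
      exact sg_comm i j _)) |> fun h => by
        first
        | exact h
        | exact congrFun h _

theorem AA_comm (a : MulAut (NN k)) (ha : a ∈ AA k) (b : MulAut (NN k)) (hb : b ∈ AA k) :
    Commute a b := by
  have h1 : ∀ j : Fin k, Commute a (sAut j) := by
    intro j
    induction ha using Subgroup.closure_induction with
    | mem x hx =>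
      obtain ⟨i, rfl⟩ := hx
      exact sAut_comm i j
    | one => exact Commute.one_left _
    | mul x y _ _ hx hy => exact hx.mul_left hy
    | inv x _ hx => exact hx.inv_left
  induction hb using Subgroup.closure_induction with
  | mem x hx =>
    obtain ⟨i, rfl⟩ := hx
    exact h1 i
  | one => exact Commute.one_right _
  | mul x y _ _ hx hy => exact hx.mul_right hy
  | inv x _ hx => exact hx.inv_right

theorem AA_sq (a : MulAut (NN k)) (ha : a ∈ AA k) : a ^ 2 = 1 := by
  induction ha using Subgroup.closure_induction with
  | mem x hx =>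
    obtain ⟨i, rfl⟩ := hx
    rw [pow_two]
    apply MulEquiv.ext
    intro x
    apply Multiplicative.toAdd.injective
    apply Subtype.ext
    exact sg_sg i _
  | one => simp
  | mul x y hx' hy' hx hy =>
    rw [(AA_comm x hx' y hy').mul_pow, hx, hy, one_mul]
  | inv x _ hx => rw [inv_pow, hx, inv_one]

theorem AA_near (a : MulAut (NN k)) (ha : a ∈ AA k) : ∀ n : NN k, ∃ m : NN k, a n = n * m ^ 2 := by
  induction ha using Subgroup.closure_induction with
  | mem x hx =>
    obtain ⟨j, rfl⟩ := hx
    intro n
    choose y hy using (Multiplicative.toAdd n).2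
    let m : U k := fun I => if j ∈ I then -(Multiplicative.toAdd n : T k).1 I
      else 2 ^ I.card * y (insert j I)
    have hm : m ∈ T k := by
      intro I
      by_cases h : j ∈ I
      · exact ⟨-y I, by simp only [m, h, if_true]; rw [hy I]; ring⟩
      · exact ⟨y (insert j I), by simp [m, h]⟩
    refine ⟨Multiplicative.ofAdd ⟨m, hm⟩, ?_⟩
    apply Multiplicative.toAdd.injective
    apply Subtype.ext
    change sg j (Multiplicative.toAdd n : T k).1 = (Multiplicative.toAdd n : T k).1 + 2 • m
    funext I
    by_cases h : j ∈ I
    · simp only [sg, m, h, if_true, Pi.add_apply, Pi.smul_apply]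
      rw [two_smul]; ring
    · simp only [sg, m, h, if_false, Pi.add_apply, Pi.smul_apply]
      rw [hy (insert j I), Finset.card_insert_of_notMem h, two_smul]; ring
  | one => exact fun n => ⟨1, by simp⟩
  | mul x y _ _ hx hy =>
    intro n
    obtain ⟨m, hm⟩ := hy n
    obtain ⟨m', hm'⟩ := hx n
    refine ⟨m' * x m, ?_⟩
    rw [MulAut.mul_apply, hm, map_mul, hm', map_pow, mul_pow, mul_assoc]
  | inv x _ hx =>
    intro n
    obtain ⟨m, hm⟩ := hx (x⁻¹ n)
    refine ⟨m⁻¹, ?_⟩
    rw [MulAut.apply_inv_self] at hm
    rw [inv_pow, eq_mul_inv_iff_mul_eq]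
    exact hm.symm

theorem single_mem (J : Finset (Fin k)) : (Pi.single J (2 ^ J.card) : U k) ∈ T k := by
  intro I
  by_cases h : I = J
  · subst h; exact ⟨1, by simp⟩
  · exact ⟨0, by simp [h]⟩

/-- the generators of the submodule -/
def eT (J : Finset (Fin k)) : T k := ⟨Pi.single J (2 ^ J.card), single_mem J⟩

theorem two_pow_zero : (2 : ZMod (2 ^ (k + 1))) ^ (k + 1) = 0 := by
  have : ((2 ^ (k + 1) : ℕ) : ZMod (2 ^ (k + 1))) = 0 := ZMod.natCast_self _
  rw [← this]; push_cast; rfl

theorem sg_single (J : Finset (Fin k)) (j : Fin k) (hj : j ∉ J) (c : ZMod (2 ^ (k + 1))) :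
    sg j (Pi.single (insert j J) c : U k) = Pi.single J c - Pi.single (insert j J) c := by
  funext I
  by_cases h : j ∈ I
  · have h1 : I ≠ J := fun h' => hj (h' ▸ h)
    simp [sg, h, h1]
  · have h1 : I ≠ insert j J := fun h' => h (h' ▸ Finset.mem_insert_self j J)
    by_cases h2 : I = J
    · subst h2
      simp [sg, h, h1]
    · have h3 : insert j I ≠ insert j J := by
        intro h'
        apply h2
        have := congrArg (fun S => Finset.erase S j) h'
        simpa [Finset.erase_insert h, Finset.erase_insert hj] using this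
      simp [sg, h, h1, h2, h3]

theorem gen (K : Subgroup (NN k)) (h1 : ∀ n : NN k, n ^ 2 = 1 → n ∈ K)
    (h2 : ∀ (a : AA k), ∀ n ∈ K, ∃ m ∈ K, (a : MulAut (NN k)) n = n * m ^ 2) : K = ⊤ := by
  have key : ∀ d : ℕ, ∀ J : Finset (Fin k), J.card + d = k → Multiplicative.ofAdd (eT J) ∈ K := by
    intro d
    induction d with
    | zero =>
      intro J hJ
      apply h1
      apply Multiplicative.toAdd.injective
      apply Subtype.ext
      change 2 • (Pi.single J (2 ^ J.card) : U k) = 0
      have : (2 : ZMod (2 ^ (k + 1))) ^ J.card * 2 = 0 := by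
        rw [← pow_succ]
        have hk : J.card + 1 = k + 1 := by omega
        rw [hk]; exact two_pow_zero
      rw [two_smul, ← Pi.single_add, ← two_mul, mul_comm, this, Pi.single_zero]
    | succ d ih =>
      intro J hJ
      have hex : ∃ j, j ∉ J := by
        by_contra hcon
        push Not at hcon
        have : J = Finset.univ := Finset.eq_univ_iff_forall.2 hcon
        rw [this, Finset.card_univ, Fintype.card_fin] at hJ
        omega
      obtain ⟨j, hj⟩ := hex
      have hin : Multiplicative.ofAdd (eT (insert j J)) ∈ K := by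
        apply ih
        rw [Finset.card_insert_of_notMem hj]; omega
      obtain ⟨m, hm, hm2⟩ := h2 ⟨sAut j, Subgroup.subset_closure ⟨j, rfl⟩⟩ _ hin
      have hm3 : sg j (eT (insert j J)).1 = (eT (insert j J)).1 + 2 • (Multiplicative.toAdd m : T k).1 :=
        congrArg (fun z : NN k => (Multiplicative.toAdd z : T k).1) hm2
      have h4 : sg j (eT (insert j J)).1 = 2 • (eT J).1 - (eT (insert j J)).1 := by
        have := sg_single J j hj (2 ^ (insert j J).card)
        change sg j (Pi.single (insert j J) (2 ^ (insert j J).card) : U k) = _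
        rw [this]
        change _ = 2 • (Pi.single J (2 ^ J.card) : U k) - (Pi.single (insert j J) (2 ^ (insert j J).card) : U k)
        congr 1
        rw [two_smul, ← Pi.single_add, Finset.card_insert_of_notMem hj]
        congr 1
        ring
      have h5 : Multiplicative.ofAdd (eT J - eT (insert j J) - Multiplicative.toAdd m) ∈ K := by
        apply h1
        apply Multiplicative.toAdd.injective
        apply Subtype.ext
        change 2 • ((eT J).1 - (eT (insert j J)).1 - (Multiplicative.toAdd m : T k).1) = 0
        rw [h4] at hm3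
        have : 2 • ((eT J).1 - (eT (insert j J)).1 - (Multiplicative.toAdd m : T k).1) =
          (2 • (eT J).1 - (eT (insert j J)).1) - ((eT (insert j J)).1 + 2 • (Multiplicative.toAdd m : T k).1) := by
          simp only [two_smul]; abel
        rw [this, hm3, sub_self]
      have h6 : Multiplicative.ofAdd (eT J) =
          Multiplicative.ofAdd (eT J - eT (insert j J) - Multiplicative.toAdd m) *
            Multiplicative.ofAdd (eT (insert j J)) * m := by
        apply Multiplicative.toAdd.injective
        change eT J = (eT J - eT (insert j J) - Multiplicative.toAdd m) + eT (insert j J) + Multiplicative.toAdd m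
        abel
      rw [h6]
      exact mul_mem (mul_mem h5 hin) hm
  rw [eq_top_iff]
  intro n _
  let K' : AddSubgroup (T k) :=
    { carrier := {x | Multiplicative.ofAdd x ∈ K}
      zero_mem' := K.one_mem
      add_mem' := fun {x y} hx hy => K.mul_mem hx hy
      neg_mem' := fun {x} hx => K.inv_mem hx }
  choose y hy using (Multiplicative.toAdd n).2
  have hsum : (Multiplicative.toAdd n : T k) = ∑ J : Finset (Fin k), (y J).val • eT J := by
    apply Subtype.ext
    rw [AddSubgroup.val_finset_sum]
    funext I
    rw [Finset.sum_apply]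
    rw [hy I]
    rw [Finset.sum_eq_single I]
    · change _ = ((y I).val • (Pi.single I (2 ^ I.card) : U k)) I
      rw [Pi.smul_apply, Pi.single_eq_same, nsmul_eq_mul, ZMod.natCast_val, ZMod.cast_id, mul_comm]
    · intro J _ hJ
      change ((y J).val • (Pi.single J (2 ^ J.card) : U k)) I = 0
      rw [Pi.smul_apply, Pi.single_eq_of_ne (Ne.symm hJ), smul_zero]
    · intro h; exact absurd (Finset.mem_univ I) h
  have hmem : (Multiplicative.toAdd n : T k) ∈ K' := by
    rw [hsum]
    apply AddSubgroup.sum_mem
    intro J _
    apply AddSubgroup.nsmul_mem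
    exact key (k - J.card) J (by
      have := Finset.card_le_univ J
      rw [Fintype.card_fin] at this
      omega)
  exact hmem

end Pool.Agent.H746R3
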