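import Pool.Agent.H746R3.Burn

set_option autoImplicit false

/-!
A criterion for a semidirect product of an abelian 2-group by an elementary abelian 2-group to be
d-maximal.
-/

namespace Pool.Agent.H746R3

open SemidirectProduct

variable {N A : Type*} [CommGroup N] [Group A]

/-- the squaring homomorphism on a subgroup -/
def sqK (K : Subgroup N) : K →* N := (powMonoidHom 2).comp K.subtype

theorem sqK_apply (K : Subgroup N) (x : K) : sqK K x = (x : N) ^ 2 := rfl

theorem card_ker_sqK_le [Finite N] (K : Subgroup N) :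
    Nat.card (sqK K).ker ≤ Nat.card (powMonoidHom 2 : N →* N).ker := by
  refine Nat.card_le_card_of_injective (fun x => ⟨((x : K) : N), ?_⟩) ?_
  · have := x.2
    rw [MonoidHom.mem_ker] at this ⊢
    exact this
  · intro x y h
    have h1 := congrArg Subtype.val h
    exact Subtype.ext (Subtype.ext h1)

theorem mem_of_card_ker_eq [Finite N] (K : Subgroup N)
    (h : Nat.card (powMonoidHom 2 : N →* N).ker ≤ Nat.card (sqK K).ker) (n : N) (hn : n ^ 2 = 1) :
    n ∈ K := by
  classical
  let f : (sqK K).ker → (powMonoidHom 2 : N →* N).ker := fun x => ⟨((x : K) : N), by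
    have := x.2
    rw [MonoidHom.mem_ker] at this ⊢
    exact this⟩
  have hf : Function.Injective f := by
    intro x y h
    have h1 := congrArg Subtype.val h
    exact Subtype.ext (Subtype.ext h1)
  have hb : Function.Bijective f :=
    (Nat.bijective_iff_injective_and_card f).2 ⟨hf, le_antisymm (card_ker_sqK_le K) h⟩
  obtain ⟨x, hx⟩ := hb.2 ⟨n, by rw [MonoidHom.mem_ker]; exact hn⟩
  have h1 := congrArg Subtype.val hx
  have h2 : ((x : K) : N) = n := h1
  rw [← h2]
  exact (x : K).2

variable (φ : A →* MulAut N)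

instance finite_semi [Finite N] [Finite A] : Finite (N ⋊[φ] A) :=
  Finite.of_equiv (N × A) SemidirectProduct.equivProd.symm

theorem index_top_ge [Finite N] [Finite A] (hA : ∀ a : A, a ^ 2 = 1)
    (hφ : ∀ (a : A) (n : N), ∃ m : N, φ a n = n * m ^ 2) :
    Nat.card (powMonoidHom 2 : N →* N).ker * Nat.card A ≤ (Sq (N ⋊[φ] A)).index := by
  have hle : Sq (N ⋊[φ] A) ≤ ((powMonoidHom 2 : N →* N).range).map (inl : N →* N ⋊[φ] A) := by
    unfold Sq
    rw [Subgroup.closure_le]
    rintro _ ⟨g, rfl⟩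
    obtain ⟨m, hm⟩ := hφ g.right g.left
    refine ⟨(g.left * m) ^ 2, ⟨g.left * m, rfl⟩, ?_⟩
    ext
    · change (g.left * m) ^ 2 = (g ^ 2).left
      rw [pow_two g, mul_left, hm, pow_two, pow_two]
      simp only [mul_assoc]
      congr 1
      rw [← mul_assoc, ← mul_assoc, mul_comm m g.left]
    · change (1 : A) = (g ^ 2).right
      rw [pow_two g, mul_right, ← pow_two, hA]
  have hcard : Nat.card (Sq (N ⋊[φ] A)) ≤ Nat.card (powMonoidHom 2 : N →* N).range := by
    refine (Nat.card_le_card_of_injective (Subgroup.inclusion hle) (Subgroup.inclusion_injective hle)).trans ?_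
    exact (Subgroup.card_map_of_injective inl_injective).le
  have h1 : Nat.card (Sq (N ⋊[φ] A)) * (Sq (N ⋊[φ] A)).index = Nat.card N * Nat.card A := by
    rw [Subgroup.card_mul_index, SemidirectProduct.card]
  have h2 : Nat.card (powMonoidHom 2 : N →* N).ker * Nat.card (powMonoidHom 2 : N →* N).range =
      Nat.card N := by
    rw [← Subgroup.index_ker, Subgroup.card_mul_index]
  have hpos : 0 < Nat.card (powMonoidHom 2 : N →* N).range := Nat.card_pos
  have h3 : Nat.card (powMonoidHom 2 : N →* N).range *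
      (Nat.card (powMonoidHom 2 : N →* N).ker * Nat.card A) ≤
      Nat.card (powMonoidHom 2 : N →* N).range * (Sq (N ⋊[φ] A)).index := by
    calc _ = Nat.card N * Nat.card A := by rw [← h2]; ring
      _ = Nat.card (Sq (N ⋊[φ] A)) * (Sq (N ⋊[φ] A)).index := h1.symm
      _ ≤ _ := Nat.mul_le_mul_right _ hcard
  exact Nat.le_of_mul_le_mul_left h3 hpos

/-- the part of `H` inside `N` -/
def part (H : Subgroup (N ⋊[φ] A)) : Subgroup N := H.comap inl

theorem card_part [Finite N] [Finite A] (H : Subgroup (N ⋊[φ] A)) :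
    Nat.card H = Nat.card (part φ H) * Nat.card (H.map (rightHom : N ⋊[φ] A →* A)) := by
  let f : H →* A := (rightHom : N ⋊[φ] A →* A).comp H.subtype
  have h1 : Nat.card f.ker * Nat.card f.range = Nat.card H := by
    rw [← Subgroup.index_ker, Subgroup.card_mul_index]
  have h2 : f.range = H.map (rightHom : N ⋊[φ] A →* A) := by
    simp [f, MonoidHom.range_comp]
  have h3 : Nat.card f.ker = Nat.card (part φ H) := by
    refine Nat.card_congr ⟨fun x => ⟨((x : H) : N ⋊[φ] A).left, ?_⟩,
      fun n => ⟨⟨inl (n : N), n.2⟩, ?_⟩, ?_, ?_⟩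
    · have hx := x.2
      rw [MonoidHom.mem_ker] at hx
      have hx' : ((x : H) : N ⋊[φ] A).right = 1 := hx
      change inl _ ∈ H
      have : (inl (((x : H) : N ⋊[φ] A).left) : N ⋊[φ] A) = (x : H) := by
        ext
        · rfl
        · exact hx'.symm
      rw [this]
      exact (x : H).2
    · rw [MonoidHom.mem_ker]
      change rightHom (inl (n : N) : N ⋊[φ] A) = 1
      simp
    · intro x
      have hx := x.2
      rw [MonoidHom.mem_ker] at hx
      have hx' : ((x : H) : N ⋊[φ] A).right = 1 := hx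
      apply Subtype.ext
      apply Subtype.ext
      ext
      · rfl
      · exact hx'.symm
    · intro n
      rfl
  rw [← h1, h2, h3]

/-- The criterion. -/
theorem dmax_index [Finite N] [Finite A] (hA : ∀ a : A, a ^ 2 = 1)
    (hφ : ∀ (a : A) (n : N), ∃ m : N, φ a n = n * m ^ 2)
    (hgen : ∀ K : Subgroup N, (∀ (a : A), ∀ n ∈ K, φ a n ∈ K) → (∀ n : N, n ^ 2 = 1 → n ∈ K) →
      (∀ (a : A), ∀ n ∈ K, ∃ m ∈ K, φ a n = n * m ^ 2) → K = ⊤)
    (H : Subgroup (N ⋊[φ] A)) (hH : H ≠ ⊤) :
    (Sq H).index < (Sq (N ⋊[φ] A)).index := by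
  by_contra hcon
  push Not at hcon
  set K := part φ H with hKdef
  set A0 := H.map (rightHom : N ⋊[φ] A →* A) with hA0
  have hcardH : Nat.card H = Nat.card K * Nat.card A0 := card_part φ H
  have hcardK : Nat.card (sqK K).ker * Nat.card (sqK K).range = Nat.card K := by
    rw [← Subgroup.index_ker, Subgroup.card_mul_index]
  -- squares of K sit in Sq H
  have hle : ((sqK K).range).map (inl : N →* N ⋊[φ] A) ≤ (Sq H).map H.subtype := by
    rintro _ ⟨_, ⟨x, rfl⟩, rfl⟩
    refine ⟨(⟨inl (x : N), x.2⟩ : H) ^ 2, sq_mem _, ?_⟩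
    change (inl (x : N) : N ⋊[φ] A) ^ 2 = inl ((x : N) ^ 2)
    rw [map_pow]
  have hc1 : Nat.card (((sqK K).range).map (inl : N →* N ⋊[φ] A)) = Nat.card (sqK K).range :=
    Subgroup.card_map_of_injective inl_injective
  have hc2 : Nat.card ((Sq H).map H.subtype) = Nat.card (Sq H) :=
    Subgroup.card_map_of_injective H.subtype_injective
  have hle2 : Nat.card (sqK K).range ≤ Nat.card (Sq H) := by
    rw [← hc1, ← hc2]
    exact Nat.card_le_card_of_injective (Subgroup.inclusion hle) (Subgroup.inclusion_injective hle)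
  have hidx : Nat.card (Sq H) * (Sq H).index = Nat.card H := Subgroup.card_mul_index _
  have hker := card_ker_sqK_le K
  have hA0le : Nat.card A0 ≤ Nat.card A := Subgroup.card_le_card_group _
  have htop := (index_top_ge φ hA hφ).trans hcon
  -- abbreviations
  set k := Nat.card (sqK K).ker with hk
  set r := Nat.card (sqK K).range with hr
  set k2 := Nat.card (powMonoidHom 2 : N →* N).ker with hk2
  have hrpos : 0 < r := Nat.card_pos
  have hkpos : 0 < k := Nat.card_pos
  have hApos : 0 < Nat.card A := Nat.card_pos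
  have hk2pos : 0 < k2 := Nat.card_pos
  have hA0pos : 0 < Nat.card A0 := Nat.card_pos
  have hidx2 : Nat.card (Sq H) * (Sq H).index = r * (k * Nat.card A0) := by
    rw [hidx, hcardH, ← hcardK]; ring
  have h4 : (Sq H).index ≤ k * Nat.card A0 := by
    have : r * (Sq H).index ≤ r * (k * Nat.card A0) := by
      rw [← hidx2]; exact Nat.mul_le_mul_right _ hle2
    exact Nat.le_of_mul_le_mul_left this hrpos
  have h5 : k2 * Nat.card A ≤ k * Nat.card A0 := htop.trans h4
  have hkk : k = k2 := by
    by_contra hne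
    have hlt : k < k2 := lt_of_le_of_ne hker hne
    have : k * Nat.card A0 < k2 * Nat.card A :=
      lt_of_le_of_lt (Nat.mul_le_mul_left _ hA0le) (Nat.mul_lt_mul_of_pos_right hlt hApos)
    omega
  have hAA : Nat.card A0 = Nat.card A := by
    rw [hkk] at h5
    exact le_antisymm hA0le (Nat.le_of_mul_le_mul_left h5 hk2pos)
  have h6 : (Sq H).index = k * Nat.card A0 := by
    apply le_antisymm h4
    rw [hkk, hAA]; exact htop
  have hposidx : 0 < k * Nat.card A0 := Nat.mul_pos hkpos hA0pos
  have h7 : Nat.card (Sq H) = r := by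
    rw [h6] at hidx2
    exact Nat.eq_of_mul_eq_mul_right hposidx hidx2
  have heq : ((sqK K).range).map (inl : N →* N ⋊[φ] A) = (Sq H).map H.subtype := by
    apply Subgroup.eq_of_le_of_card_ge hle
    rw [hc1, hc2, h7]
  have hA0top : A0 = ⊤ := Subgroup.eq_top_of_card_eq _ hAA
  have hlift : ∀ a : A, ∃ h ∈ H, h.right = a := by
    intro a
    have : a ∈ A0 := by rw [hA0top]; trivial
    obtain ⟨h, hh, rfl⟩ := this
    exact ⟨h, hh, rfl⟩
  have hsq : ∀ n : N, (inl n : N ⋊[φ] A) ∈ (Sq H).map H.subtype → ∃ m ∈ K, n = m ^ 2 := by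
    intro n hn
    rw [← heq] at hn
    obtain ⟨_, ⟨x, rfl⟩, hx⟩ := hn
    refine ⟨x, x.2, ?_⟩
    exact (inl_injective hx).symm
  have hcomm : ∀ (a : A), ∀ n ∈ K, ∃ m ∈ K, φ a n = n * m ^ 2 := by
    intro a n hn
    obtain ⟨h, hh, rfl⟩ := hlift a
    have hn' : (inl n : N ⋊[φ] A) ∈ H := hn
    have hmem := comm_mem (⟨h, hh⟩ : H) (⟨inl n, hn'⟩ : H)
    have : (inl (φ h.right n * n⁻¹) : N ⋊[φ] A) ∈ (Sq H).map H.subtype := by
      refine ⟨_, hmem, ?_⟩
      change h * inl n * h⁻¹ * (inl n)⁻¹ = inl (φ h.right n * n⁻¹)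
      ext
      · simp [mul_left, mul_right, inv_left, inv_right]
      · simp [mul_right, inv_right]
    obtain ⟨m, hm, hm2⟩ := hsq _ this
    refine ⟨m, hm, ?_⟩
    rw [← hm2, mul_comm n, inv_mul_cancel_right]
  have hKtop : K = ⊤ := by
    apply hgen K
    · intro a n hn
      obtain ⟨m, hm, h⟩ := hcomm a n hn
      rw [h]
      exact mul_mem hn (pow_mem hm 2)
    · intro n hn
      exact mem_of_card_ker_eq K (by rw [← hk, ← hk2, hkk]) n hn
    · exact hcomm
  apply hH
  rw [eq_top_iff]
  intro g _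
  obtain ⟨h, hh, hr'⟩ := hlift g.right
  have : g = inl (g.left * h.left⁻¹) * h := by
    ext
    · simp
    · simp [hr']
  rw [this]
  refine mul_mem ?_ hh
  have : g.left * h.left⁻¹ ∈ K := by rw [hKtop]; trivial
  exact this

end Pool.Agent.H746R3
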